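import Pool.Agent.Helper98.SPR.Stmts

/-!
# Row GRID: the shifted triadic grids
-/

namespace SPR

theorem floor_div_three_le {y y' : ℝ} (h : ⌊y⌋ = ⌊y'⌋) : ⌊y / 3⌋ ≤ ⌊y' / 3⌋ := by
  rw [Int.le_floor]
  have h1 : ((⌊y / 3⌋ : ℤ) : ℝ) ≤ y / 3 := Int.floor_le _
  have h2 : 3 * ⌊y / 3⌋ ≤ ⌊y⌋ := by
    rw [Int.le_floor]
    push_cast
    linarith
  rw [h] at h2
  have h3 : ((⌊y'⌋ : ℤ) : ℝ) ≤ y' := Int.floor_le _
  have h4 : ((3 * ⌊y / 3⌋ : ℤ) : ℝ) ≤ ((⌊y'⌋ : ℤ) : ℝ) := by exact_mod_cast h2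
  push_cast at h4
  linarith

theorem floor_div_three {y y' : ℝ} (h : ⌊y⌋ = ⌊y'⌋) : ⌊y / 3⌋ = ⌊y' / 3⌋ :=
  le_antisymm (floor_div_three_le h) (floor_div_three_le h.symm)

theorem gr_coord {a : ℕ} {i : ℤ} {t t' : ℝ}
    (h : ⌊t / (3 : ℝ) ^ i - (a : ℝ) / 2⌋ = ⌊t' / (3 : ℝ) ^ i - (a : ℝ) / 2⌋) :
    ⌊t / (3 : ℝ) ^ (i + 1) - (a : ℝ) / 2⌋ = ⌊t' / (3 : ℝ) ^ (i + 1) - (a : ℝ) / 2⌋ := by
  have key : ∀ u : ℝ, u / (3 : ℝ) ^ (i + 1) - (a : ℝ) / 2 =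
      (u / (3 : ℝ) ^ i - (a : ℝ) / 2 - (a : ℤ)) / 3 := by
    intro u
    rw [zpow_add_one₀ (by norm_num : (3 : ℝ) ≠ 0)]
    have : (3 : ℝ) ^ i ≠ 0 := zpow_ne_zero _ (by norm_num)
    push_cast
    field_simp
    ring
  rw [key, key]
  apply floor_div_three
  rw [Int.floor_sub_intCast, Int.floor_sub_intCast, h]

theorem gr_shift {i : ℤ} {x R : ℝ} (hR : 0 ≤ R) (h : 4 * R < (3 : ℝ) ^ i) :
    ∃ a : ℕ, a ≤ 1 ∧ ∀ t : ℝ, |t - x| ≤ R →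
      ⌊t / (3 : ℝ) ^ i - (a : ℝ) / 2⌋ = ⌊x / (3 : ℝ) ^ i - (a : ℝ) / 2⌋ := by
  have hl : (0 : ℝ) < (3 : ℝ) ^ i := zpow_pos (by norm_num) _
  obtain ⟨a, ha, n, hn⟩ : ∃ a : ℕ, a ≤ 1 ∧ ∃ n : ℤ, ∀ t : ℝ, |t - x| ≤ R →
      ⌊t / (3 : ℝ) ^ i - (a : ℝ) / 2⌋ = n := by
    set v : ℝ := (x - R) / (3 : ℝ) ^ i with hv
    have hfl : ((⌊v⌋ : ℤ) : ℝ) ≤ v := Int.floor_le v
    have hfl' : v < ((⌊v⌋ : ℤ) : ℝ) + 1 := Int.lt_floor_add_one v
    have hlow : ∀ t : ℝ, |t - x| ≤ R → v ≤ t / (3 : ℝ) ^ i := by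
      intro t ht
      rw [hv]
      refine div_le_div_of_nonneg_right ?_ hl.le
      have := (abs_le.1 ht).1
      linarith
    have hup : ∀ t : ℝ, |t - x| ≤ R → t / (3 : ℝ) ^ i < v + 1 / 2 := by
      intro t ht
      rw [hv, ← sub_lt_iff_lt_add', ← sub_div, div_lt_iff₀ hl]
      have := (abs_le.1 ht).2
      linarith
    by_cases hf : v < ((⌊v⌋ : ℤ) : ℝ) + 1 / 2
    · refine ⟨0, by norm_num, ⌊v⌋, fun t ht => ?_⟩
      rw [Int.floor_eq_iff]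
      have h1 := hlow t ht
      have h2 := hup t ht
      constructor
      · push_cast
        linarith
      · push_cast
        linarith
    · push Not at hf
      refine ⟨1, le_rfl, ⌊v⌋, fun t ht => ?_⟩
      rw [Int.floor_eq_iff]
      have h1 := hlow t ht
      have h2 := hup t ht
      constructor
      · push_cast
        linarith
      · push_cast
        linarith
  refine ⟨a, ha, fun t ht => ?_⟩
  rw [hn t ht, hn x (by simpa using hR)]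

theorem gr_close {a : ℕ} {i : ℤ} {t t' : ℝ}
    (h : ⌊t / (3 : ℝ) ^ i - (a : ℝ) / 2⌋ = ⌊t' / (3 : ℝ) ^ i - (a : ℝ) / 2⌋) :
    |t - t'| ≤ (3 : ℝ) ^ i := by
  have hl : (0 : ℝ) < (3 : ℝ) ^ i := zpow_pos (by norm_num) _
  have h1 := Int.abs_sub_lt_one_of_floor_eq_floor h
  have h2 : t / (3 : ℝ) ^ i - (a : ℝ) / 2 - (t' / (3 : ℝ) ^ i - (a : ℝ) / 2) =
      (t - t') / (3 : ℝ) ^ i := by ring
  rw [h2, abs_div, abs_of_pos hl, div_lt_one hl] at h1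
  exact h1.le

theorem st_GRID : ST_GRID := by
  refine ⟨?_, ?_, ?_⟩
  · intro a b i z z' h
    unfold gr at h ⊢
    rw [Prod.mk.injEq] at h ⊢
    exact ⟨gr_coord h.1, gr_coord h.2⟩
  · intro i x R hR h
    obtain ⟨a, ha, ha'⟩ := gr_shift (x := x.re) hR h
    obtain ⟨b, hb, hb'⟩ := gr_shift (x := x.im) hR h
    refine ⟨a, ha, b, hb, fun z hz => ?_⟩
    unfold gr
    rw [Prod.mk.injEq]
    rw [dist_eq_norm] at hz
    refine ⟨ha' _ ?_, hb' _ ?_⟩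
    · have := Complex.abs_re_le_norm (z - x)
      rw [Complex.sub_re] at this
      exact this.trans hz
    · have := Complex.abs_im_le_norm (z - x)
      rw [Complex.sub_im] at this
      exact this.trans hz
  · intro a b i z z' h
    unfold gr at h
    rw [Prod.mk.injEq] at h
    have h1 := gr_close h.1
    have h2 := gr_close h.2
    rw [dist_eq_norm]
    have h3 := Complex.norm_le_abs_re_add_abs_im (z - z')
    rw [Complex.sub_re, Complex.sub_im] at h3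
    linarith

end SPR
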