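import Pool.Agent.Helper98.SPR.Stmts

/-!
# Row LIFT: lifting a path of the multigraph to the touching graph
-/

namespace SPR

open Finset

theorem tree_walk {K : ℝ} {V : Type} {c : V → V → ℕ} (M : DiscModel K c) :
    ∀ (n : ℕ) (d : Fin M.N) (z : V), M.depth d = n → M.own d = z →
      ∃ W : M.TG.Walk d (M.root z), ∀ a ∈ W.support, M.own a = z := by
  intro n
  induction n with
  | zero =>
    intro d z hd hz
    have h := (M.depth_eq_zero d).1 hd
    rw [hz] at h
    subst h
    exact ⟨SimpleGraph.Walk.nil, by
      intro a ha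
      rw [SimpleGraph.Walk.support_nil, List.mem_singleton] at ha
      rw [ha, hz]⟩
  | succ n ih =>
    intro d z hd hz
    have hne : M.depth d ≠ 0 := by omega
    have h1 := M.depth_par d hne
    obtain ⟨W, hW⟩ := ih (M.par d) z (by omega) (by rw [M.own_par, hz])
    have hadj : M.TG.Adj d (M.par d) := by
      unfold DiscModel.TG
      rw [SimpleGraph.fromRel_adj]
      refine ⟨?_, Or.inl (Or.inl ⟨hne, rfl⟩)⟩
      intro h
      rw [← h] at h1
      omega
    refine ⟨SimpleGraph.Walk.cons hadj W, ?_⟩
    intro a ha
    rw [SimpleGraph.Walk.support_cons, List.mem_cons] at ha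
    rcases ha with ha | ha
    · rw [ha, hz]
    · exact hW a ha

theorem tree_walk' {K : ℝ} {V : Type} {c : V → V → ℕ} (M : DiscModel K c) (d : Fin M.N) (z : V)
    (h : M.own d = z) : ∃ W : M.TG.Walk d (M.root z), ∀ a ∈ W.support, M.own a = z :=
  tree_walk M (M.depth d) d z rfl h

theorem exists_edge {K : ℝ} {V : Type} {c : V → V → ℕ} (M : DiscModel K c) {z v : V}
    (h : c z v ≠ 0) : ∃ d d', M.own d = z ∧ M.own d' = v ∧ M.TG.Adj d d' := by
  classical
  have h1 := M.e_sum z v
  by_contra hcon
  push Not at hcon
  apply h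
  rw [← h1]
  refine Finset.sum_eq_zero fun d hd => Finset.sum_eq_zero fun d' hd' => ?_
  rw [Finset.mem_filter] at hd hd'
  by_contra hne
  refine hcon d d' hd.2 hd'.2 ?_
  unfold DiscModel.TG
  rw [SimpleGraph.fromRel_adj]
  refine ⟨?_, Or.inl (Or.inr (Or.inr hne))⟩
  intro he
  have h2 := (M.e_touch d d' hne).1
  rw [he, dist_self] at h2
  have := M.rad_pos d'
  linarith

theorem st_LIFT : ST_LIFT := by
  classical
  intro K V c M r u v y hK hy hN
  induction r generalizing v with
  | zero =>
    have huv : u = v := hN
    subst huv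
    obtain ⟨W, hW⟩ := tree_walk' M y u hy
    refine ⟨W, fun a ha => ?_, {u}, by simp, fun a ha => ?_⟩
    · rw [hW a ha]
      exact rfl
    · rw [hW a ha]
      exact Finset.mem_singleton_self u
  | succ r ih =>
    rcases hN with hN | ⟨z, hz, hcz⟩
    · obtain ⟨W, hW, Q, hQ, hWQ⟩ := ih v hN
      exact ⟨W, fun a ha => Or.inl (hW a ha), Q, by omega, hWQ⟩
    · obtain ⟨W, hW, Q, hQ, hWQ⟩ := ih z hz
      obtain ⟨d, d', hd, hd', hadj⟩ := exists_edge M hcz
      obtain ⟨W1, hW1⟩ := tree_walk' M d z hd
      obtain ⟨W2, hW2⟩ := tree_walk' M d' v hd'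
      have hroot : M.own (M.root z) = z := M.own_root z
      have hzQ : z ∈ Q := by
        have := hWQ (M.root z) (SimpleGraph.Walk.end_mem_support W)
        rwa [hroot] at this
      refine ⟨W.append (W1.reverse.append (SimpleGraph.Walk.cons hadj W2)), ?_, insert v Q, ?_, ?_⟩
      · intro a ha
        rw [SimpleGraph.Walk.mem_support_append_iff, SimpleGraph.Walk.mem_support_append_iff,
          SimpleGraph.Walk.support_reverse, List.mem_reverse, SimpleGraph.Walk.support_cons,
          List.mem_cons] at ha
        rcases ha with ha | ha | ha | ha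
        · exact Or.inl (hW a ha)
        · rw [hW1 a ha]
          exact Or.inl hz
        · rw [ha, hd]
          exact Or.inl hz
        · rw [hW2 a ha]
          exact Or.inr ⟨z, hz, hcz⟩
      · have := Finset.card_insert_le v Q
        omega
      · intro a ha
        rw [SimpleGraph.Walk.mem_support_append_iff, SimpleGraph.Walk.mem_support_append_iff,
          SimpleGraph.Walk.support_reverse, List.mem_reverse, SimpleGraph.Walk.support_cons,
          List.mem_cons] at ha
        rcases ha with ha | ha | ha | ha
        · exact Finset.mem_insert_of_mem (hWQ a ha)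
        · rw [hW1 a ha]
          exact Finset.mem_insert_of_mem hzQ
        · rw [ha, hd]
          exact Finset.mem_insert_of_mem hzQ
        · rw [hW2 a ha]
          exact Finset.mem_insert_self _ _

end SPR
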