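import Pool.Agent.Helper98.SPR.Stmts

/-!
# Row POT: supported cells in a nested sequence of partitions
-/

namespace SPR

open Finset

/-- mass of a cell -/
noncomputable def cmass {Z I : Type} [Fintype Z] [DecidableEq I] (m : Z → ℝ) (κ : Z → I)
    (B : I) : ℝ := ∑ z with κ z = B, m z

theorem cmass_nonneg {Z I : Type} [Fintype Z] [DecidableEq I] {m : Z → ℝ} (hm : ∀ z, 0 ≤ m z)
    (κ : Z → I) (B : I) : 0 ≤ cmass m κ B :=
  Finset.sum_nonneg fun z _ => hm z

theorem min_sum_le {I : Type} [DecidableEq I] (T : Finset I) (f : I → ℝ) (h : ℝ) (hh : 0 ≤ h)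
    (hf : ∀ B ∈ T, 0 ≤ f B) : min (∑ B ∈ T, f B) h ≤ ∑ B ∈ T, min (f B) h := by
  by_cases hex : ∃ B ∈ T, h ≤ f B
  · obtain ⟨B, hB, hle⟩ := hex
    refine (min_le_right _ _).trans ?_
    have h1 : min (f B) h ≤ ∑ B ∈ T, min (f B) h :=
      Finset.single_le_sum (f := fun B => min (f B) h) (fun b hb => le_min (hf b hb) hh) hB
    rw [min_eq_right hle] at h1
    exact h1
  · push Not at hex
    have : ∑ B ∈ T, min (f B) h = ∑ B ∈ T, f B :=
      Finset.sum_congr rfl fun B hB => min_eq_left (hex B hB).le
    rw [this]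
    exact min_le_left _ _

theorem two_le_min_sum {I : Type} [DecidableEq I] [Nonempty I] (T : Finset I) (f : I → ℝ) (h : ℝ)
    (hh : 0 ≤ h) (hf : ∀ B ∈ T, 0 ≤ f B) (hs : ∀ B0, 2 * h ≤ ∑ B ∈ T.erase B0, f B) :
    2 * h ≤ ∑ B ∈ T, min (f B) h := by
  by_cases hex : ∃ B ∈ T, h ≤ f B
  · obtain ⟨B, hB, hle⟩ := hex
    rw [← Finset.add_sum_erase T _ hB, min_eq_right hle]
    have h1 := min_sum_le (T.erase B) f h hh fun b hb => hf b (Finset.mem_of_mem_erase hb)
    have h2 : h ≤ min (∑ B ∈ T.erase B, f B) h := le_min (by linarith [hs B]) le_rfl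
    linarith
  · push Not at hex
    have : ∑ B ∈ T, min (f B) h = ∑ B ∈ T, f B :=
      Finset.sum_congr rfl fun B hB => min_eq_left (hex B hB).le
    rw [this]
    obtain ⟨B0⟩ := ‹Nonempty I›
    refine (hs B0).trans ?_
    exact Finset.sum_le_sum_of_subset_of_nonneg (Finset.erase_subset _ _) fun b hb _ => hf b hb

/-- potential of a partition -/
noncomputable def pot {Z I : Type} [Fintype Z] [DecidableEq I] (m : Z → ℝ) (h : ℝ)
    (κ : Z → I) : ℝ := ∑ B ∈ Finset.univ.image κ, min (cmass m κ B) h

theorem cmass_fiber {Z I : Type} [Fintype Z] [DecidableEq I] (m : Z → ℝ)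
    (κ κ' : Z → I) (g : I → I) (hg : κ' = g ∘ κ) (A : I) :
    cmass m κ' A = ∑ B ∈ (Finset.univ.image κ).filter (fun B => g B = A), cmass m κ B := by
  unfold cmass
  rw [← Finset.sum_fiberwise_of_maps_to (s := Finset.univ.filter (fun z => κ' z = A))
    (t := (Finset.univ.image κ).filter (fun B => g B = A)) (g := κ)]
  · refine Finset.sum_congr rfl fun B hB => ?_
    refine Finset.sum_congr ?_ fun _ _ => rfl
    ext z
    simp only [Finset.mem_filter, Finset.mem_univ, true_and]
    constructor
    · rintro ⟨_, h2⟩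
      exact h2
    · intro h2
      refine ⟨?_, h2⟩
      rw [hg]
      simp only [Function.comp]
      rw [h2]
      exact (Finset.mem_filter.1 hB).2
  · intro z hz
    simp only [Finset.mem_filter, Finset.mem_univ, true_and, Finset.mem_image] at hz ⊢
    refine ⟨⟨z, rfl⟩, ?_⟩
    rw [← hz, hg]
    rfl

theorem pot_step {Z I : Type} [Fintype Z] [DecidableEq I] [Nonempty I] (m : Z → ℝ)
    (hm : ∀ z, 0 ≤ m z) (h : ℝ) (hh : 0 < h) (κ κ' : Z → I)
    (hn : ∀ z z', κ z = κ z' → κ' z = κ' z') (Q : Finset I)
    (hQ : ∀ A ∈ Q, ∀ B, 2 * h ≤ ∑ z with (κ' z = A ∧ κ z ≠ B), m z) :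
    pot m h κ' + h * Q.card ≤ pot m h κ := by
  obtain ⟨g, hg⟩ : ∃ g : I → I, κ' = g ∘ κ :=
    (Function.factorsThrough_iff κ').1 fun z z' hz => hn z z' hz
  have hsub : Q ⊆ Finset.univ.image κ' := by
    intro A hA
    by_contra hne
    obtain ⟨B0⟩ := ‹Nonempty I›
    have h1 := hQ A hA B0
    rw [Finset.sum_eq_zero] at h1
    · linarith
    · intro z hz
      exact absurd (Finset.mem_image.2 ⟨z, Finset.mem_univ _, (Finset.mem_filter.1 hz).2.1⟩) hne
  have hsplit : pot m h κ = ∑ A ∈ Finset.univ.image κ',
      ∑ B ∈ (Finset.univ.image κ).filter (fun B => g B = A), min (cmass m κ B) h := by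
    unfold pot
    rw [Finset.sum_fiberwise_of_maps_to]
    intro B hB
    obtain ⟨z, _, rfl⟩ := Finset.mem_image.1 hB
    refine Finset.mem_image.2 ⟨z, Finset.mem_univ _, ?_⟩
    rw [hg]
    rfl
  have hcard : h * Q.card = ∑ A ∈ Finset.univ.image κ', (if A ∈ Q then h else 0) := by
    rw [← Finset.sum_filter, Finset.filter_mem_eq_inter, Finset.inter_eq_right.2 hsub,
      Finset.sum_const, nsmul_eq_mul, mul_comm]
  rw [hsplit, hcard]
  unfold pot
  rw [← Finset.sum_add_distrib]
  refine Finset.sum_le_sum fun A _ => ?_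
  have hnn : ∀ B ∈ (Finset.univ.image κ).filter (fun B => g B = A), 0 ≤ cmass m κ B :=
    fun B _ => cmass_nonneg hm κ B
  by_cases hA : A ∈ Q
  · rw [if_pos hA]
    have h2 : 2 * h ≤ ∑ B ∈ (Finset.univ.image κ).filter (fun B => g B = A),
        min (cmass m κ B) h := by
      refine two_le_min_sum _ _ h hh.le hnn fun B0 => ?_
      refine (hQ A hA B0).trans (le_of_eq ?_)
      rw [← Finset.sum_fiberwise_of_maps_to
        (s := Finset.univ.filter (fun z => κ' z = A ∧ κ z ≠ B0))
        (t := ((Finset.univ.image κ).filter (fun B => g B = A)).erase B0) (g := κ)]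
      · refine Finset.sum_congr rfl fun B hB => ?_
        unfold cmass
        refine Finset.sum_congr ?_ fun _ _ => rfl
        rw [Finset.mem_erase, Finset.mem_filter] at hB
        ext z
        simp only [Finset.mem_filter, Finset.mem_univ, true_and]
        constructor
        · rintro ⟨_, h2⟩
          exact h2
        · intro h2
          refine ⟨⟨?_, ?_⟩, h2⟩
          · rw [hg]
            simp only [Function.comp]
            rw [h2]
            exact hB.2.2
          · rw [h2]
            exact hB.1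
      · intro z hz
        simp only [Finset.mem_filter, Finset.mem_univ, true_and, Finset.mem_image,
          Finset.mem_erase] at hz ⊢
        refine ⟨hz.2, ⟨z, rfl⟩, ?_⟩
        rw [← hz.1, hg]
        rfl
    have h3 : min (cmass m κ' A) h ≤ h := min_le_right _ _
    linarith
  · rw [if_neg hA, add_zero, cmass_fiber m κ κ' g hg A]
    exact min_sum_le _ _ h hh.le hnn

theorem pot_le {Z I : Type} [Fintype Z] [DecidableEq I] (m : Z → ℝ) (h : ℝ)
    (κ : Z → I) : pot m h κ ≤ ∑ z, m z := by
  unfold pot
  calc ∑ B ∈ Finset.univ.image κ, min (cmass m κ B) h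
      ≤ ∑ B ∈ Finset.univ.image κ, cmass m κ B :=
        Finset.sum_le_sum fun B _ => min_le_left _ _
    _ = ∑ z, m z := by
        unfold cmass
        rw [Finset.sum_fiberwise_of_maps_to]
        intro z _
        exact Finset.mem_image.2 ⟨z, Finset.mem_univ _, rfl⟩

theorem pot_nonneg {Z I : Type} [Fintype Z] [DecidableEq I] (m : Z → ℝ) (hm : ∀ z, 0 ≤ m z)
    (h : ℝ) (hh : 0 ≤ h) (κ : Z → I) : 0 ≤ pot m h κ :=
  Finset.sum_nonneg fun B _ => le_min (cmass_nonneg hm κ B) hh

theorem st_POT : ST_POT := by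
  classical
  intro Z _ m cell s P hs hm hn hP
  have hh : 0 < s / 2 := by positivity
  have key : ∀ n : ℕ, pot m (s / 2) (cell n) +
      s / 2 * ((P.filter (fun q => q.1 < n)).card : ℝ) ≤ ∑ z, m z := by
    intro n
    induction n with
    | zero =>
      simp only [Nat.not_lt_zero, Finset.filter_false, Finset.card_empty, Nat.cast_zero, mul_zero,
        add_zero]
      exact pot_le m _ _
    | succ n ih =>
      have h1 := pot_step m hm (s / 2) hh (cell n) (cell (n + 1)) (hn n)
        ((P.filter (fun q => q.1 = n)).image (fun q => q.2)) (by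
          intro A hA B
          obtain ⟨q, hq, rfl⟩ := Finset.mem_image.1 hA
          rw [Finset.mem_filter] at hq
          have := hP q hq.1 B
          rw [hq.2] at this
          have h2 : 2 * (s / 2) = s := by ring
          rw [h2]
          convert this using 1)
      have h2 : ((P.filter (fun q => q.1 = n)).image (fun q => q.2)).card =
          (P.filter (fun q => q.1 = n)).card := by
        refine Finset.card_image_of_injOn ?_
        intro q hq q' hq' he
        simp only [Finset.coe_filter, Set.mem_ofPred_eq] at hq hq'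
        exact Prod.ext (hq.2.trans hq'.2.symm) he
      rw [h2] at h1
      have h3 : (P.filter (fun q => q.1 < n + 1)).card =
          (P.filter (fun q => q.1 < n)).card + (P.filter (fun q => q.1 = n)).card := by
        rw [← Finset.card_union_of_disjoint]
        · congr 1
          ext q
          simp only [Finset.mem_filter, Finset.mem_union]
          constructor
          · rintro ⟨hq, hlt⟩
            rcases Nat.lt_succ_iff_lt_or_eq.1 hlt with h | h
            · exact Or.inl ⟨hq, h⟩
            · exact Or.inr ⟨hq, h⟩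
          · rintro (⟨hq, h⟩ | ⟨hq, h⟩)
            · exact ⟨hq, by omega⟩
            · exact ⟨hq, by omega⟩
        · rw [Finset.disjoint_left]
          intro q hq hq'
          rw [Finset.mem_filter] at hq hq'
          omega
      rw [h3]
      push_cast
      linarith
  have hN : P.filter (fun q => q.1 < P.sup (fun q => q.1) + 1) = P := by
    refine Finset.filter_true_of_mem fun q hq => ?_
    have := Finset.le_sup (f := fun q : ℕ × (ℤ × ℤ) => q.1) hq
    omega
  have h1 := key (P.sup (fun q => q.1) + 1)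
  rw [hN] at h1
  have h2 := pot_nonneg m hm (s / 2) hh.le (cell (P.sup (fun q => q.1) + 1))
  linarith

end SPR
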