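import Pool.Agent.Helper98.SPR.Stmts

/-!
# Row RSUM: logarithmic area of an annulus
-/

namespace SPR

open Finset

theorem st_RSUM : ST_AREA → ST_RSUM := by
  classical
  intro hA N x ρ z r n hρ hd hr
  induction n with
  | zero =>
    rw [Finset.sum_eq_zero]
    · simp
    · intro d hd'
      rw [Finset.mem_filter] at hd'
      have h1 := hd'.2.1
      have h2 := hd'.2.2
      rw [pow_zero, one_mul] at h2
      linarith
  | succ n ih =>
    have hp : (0 : ℝ) < 2 ^ n * r := by positivity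
    have hbin : ∑ d with (2 ^ n * r ≤ fd x ρ z d ∧ fd x ρ z d < 2 ^ (n + 1) * r),
        (ρ d / fd x ρ z d) ^ 2 ≤ 4 := by
      have h1 : ∑ d with (2 ^ n * r ≤ fd x ρ z d ∧ fd x ρ z d < 2 ^ (n + 1) * r),
          (ρ d / fd x ρ z d) ^ 2 ≤
          ∑ d with (2 ^ n * r ≤ fd x ρ z d ∧ fd x ρ z d < 2 ^ (n + 1) * r),
            ρ d ^ 2 / (2 ^ n * r) ^ 2 := by
        refine Finset.sum_le_sum fun d hd' => ?_
        rw [Finset.mem_filter] at hd'
        rw [div_pow]
        refine div_le_div_of_nonneg_left (sq_nonneg _) (by positivity) ?_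
        exact pow_le_pow_left₀ hp.le hd'.2.1 2
      refine h1.trans ?_
      rw [← Finset.sum_div, div_le_iff₀ (by positivity)]
      have h2 := hA N x ρ (Finset.univ.filter
        (fun d => 2 ^ n * r ≤ fd x ρ z d ∧ fd x ρ z d < 2 ^ (n + 1) * r)) z (2 ^ (n + 1) * r)
        hρ hd (fun d hd' => (Finset.mem_filter.1 hd').2.2.le) (by positivity)
      refine h2.trans (le_of_eq ?_)
      ring
    have hsub : Finset.univ.filter (fun d => r ≤ fd x ρ z d ∧ fd x ρ z d < 2 ^ (n + 1) * r) ⊆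
        Finset.univ.filter (fun d => r ≤ fd x ρ z d ∧ fd x ρ z d < 2 ^ n * r) ∪
        Finset.univ.filter (fun d => 2 ^ n * r ≤ fd x ρ z d ∧ fd x ρ z d < 2 ^ (n + 1) * r) := by
      intro d hd'
      simp only [Finset.mem_filter, Finset.mem_univ, true_and, Finset.mem_union] at hd' ⊢
      rcases lt_or_ge (fd x ρ z d) (2 ^ n * r) with h | h
      · exact Or.inl ⟨hd'.1, h⟩
      · exact Or.inr ⟨h, hd'.2⟩
    have h1 := Finset.sum_le_sum_of_subset_of_nonneg
      (f := fun d => (ρ d / fd x ρ z d) ^ 2) hsub (fun d _ _ => sq_nonneg _)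
    have h2 : ∑ d ∈ Finset.univ.filter (fun d => r ≤ fd x ρ z d ∧ fd x ρ z d < 2 ^ n * r) ∪
        Finset.univ.filter (fun d => 2 ^ n * r ≤ fd x ρ z d ∧ fd x ρ z d < 2 ^ (n + 1) * r),
        (ρ d / fd x ρ z d) ^ 2 ≤
        ∑ d with (r ≤ fd x ρ z d ∧ fd x ρ z d < 2 ^ n * r), (ρ d / fd x ρ z d) ^ 2 +
        ∑ d with (2 ^ n * r ≤ fd x ρ z d ∧ fd x ρ z d < 2 ^ (n + 1) * r),
          (ρ d / fd x ρ z d) ^ 2 := by
      rw [← Finset.sum_union_inter]
      exact le_add_of_nonneg_right (Finset.sum_nonneg fun d _ => sq_nonneg _)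
    push_cast
    have h3 := ih
    have h4 : ∀ a b c d : ℝ, a ≤ b → b ≤ c + d → c ≤ 4 * (n : ℝ) → d ≤ 4 → a ≤ 4 * ((n : ℝ) + 1) := by
      intro a b c d h1 h2 h3 h4
      linarith
    refine h4 _ _ _ _ ?_ h2 ?_ hbin
    · convert h1 using 2
    · convert h3 using 2

end SPR
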